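import Mathlib
import Pool.Agent.MelD.ClosedG

open Pool.Agent.MelG (HasRel)

namespace Pool.Agent.Results.MP_24ba74_al.ClosedSubgroups

theorem result (m : ℕ) (G : Type) [Group G] (h1 : HasRel 1 G)
    (H : ∀ N : Subgroup G, N.Normal → N.FiniteIndex → HasRel m N)
    (S : Subgroup G) (hinf : ¬ S.FiniteIndex)
    (hS : ∀ x : G, x ∉ S → ∃ U : Subgroup G, U.FiniteIndex ∧ S ≤ U ∧ x ∉ U) :
    (∀ (p n : ℕ), p.Prime → ∀ s : FreeGroup (Fin n), s ≠ 1 →
      s ∈ ⁅(⊤ : Subgroup (FreeGroup (Fin n))), (⊤ : Subgroup (FreeGroup (Fin n)))⁆ ⊔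
        Subgroup.closure (Set.range fun y : FreeGroup (Fin n) => y ^ p) →
      IsEmpty (S ≃* PresentedGroup ({s} : Set (FreeGroup (Fin n))))) ∧
    ((∀ V : Subgroup S, V.FiniteIndex →
        ∃ U : Subgroup G, U.FiniteIndex ∧ U.subgroupOf S ≤ V) →
      ∀ (P : Type) [Group P] [Finite P] (N : Subgroup P) [N.Normal] (φ : S →* P ⧸ N),
        ∃ ψ : S →* P, ∀ s, (QuotientGroup.mk (ψ s) : P ⧸ N) = φ s) := by
  refine ⟨?_, ?_⟩
  · intro p n hp s hs1 hs
    have h2 : s ∈ Pool.Agent.MelD.VT p (⊤ : Subgroup (FreeGroup (Fin n))) := by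
      unfold Pool.Agent.MelD.VT
      rw [Subgroup.coe_top, Set.image_univ]
      exact hs
    have h3 := Pool.Agent.MelD.closed_not_OR m G h1 H S hinf hS p hp s hs1 h2
    exact ⟨fun e => h3.false e.symm⟩
  · intro hfull P _ _ N _ φ
    exact Pool.Agent.MelD.closed_projective m G h1 H S hinf hS hfull P N φ

end Pool.Agent.Results.MP_24ba74_al.ClosedSubgroups
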