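import Mathlib
import Pool.Agent.MelD.Kern

open Pool.Agent.MelG (HasRel)

namespace Pool.Agent.Results.MP_24ba74_al.PerfectKernel

theorem result (l m : ℕ) (hl : 2 ≤ l) (r : FreeGroup (Fin (l + 1))) (hr1 : r ≠ 1)
    (hr : r ∈ Subgroup.normalClosure {FreeGroup.of (Fin.last l)})
    (H : ∀ N : Subgroup (PresentedGroup ({r} : Set (FreeGroup (Fin (l + 1))))), N.Normal →
      N.FiniteIndex → PresentedGroup.of (Fin.last l) ∈ N → HasRel m N) :
    (∃ (g : FreeGroup (Fin (l + 1))) (ε : ℤ), (ε = 1 ∨ ε = -1) ∧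
      r * (g * FreeGroup.of (Fin.last l) ^ ε * g⁻¹)⁻¹ ∈
        ⁅Subgroup.normalClosure {FreeGroup.of (Fin.last l)},
          Subgroup.normalClosure {FreeGroup.of (Fin.last l)}⁆) ∧
    ⁅Subgroup.normalClosure {(PresentedGroup.of (Fin.last l) :
          PresentedGroup ({r} : Set (FreeGroup (Fin (l + 1)))))},
      Subgroup.normalClosure {(PresentedGroup.of (Fin.last l) :
          PresentedGroup ({r} : Set (FreeGroup (Fin (l + 1)))))}⁆ =
      Subgroup.normalClosure {(PresentedGroup.of (Fin.last l) :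
          PresentedGroup ({r} : Set (FreeGroup (Fin (l + 1)))))} ∧
    ((∀ x : PresentedGroup ({r} : Set (FreeGroup (Fin (l + 1)))), x ≠ 1 →
        ∃ n, x ∉ derivedSeries (PresentedGroup ({r} : Set (FreeGroup (Fin (l + 1))))) n) →
      Nonempty (PresentedGroup ({r} : Set (FreeGroup (Fin (l + 1)))) ≃* FreeGroup (Fin l))) := by
  obtain ⟨g, ε, hε, h⟩ := Pool.Agent.MelD.kernel hl r hr1 hr m (Pool.Agent.MelD.HL_of_last r H)
  have hp := Pool.Agent.MelD.perfect r g ε hε h
  exact ⟨⟨g, ε, hε, h⟩, hp, Pool.Agent.MelD.free_of_perfect r hr hp⟩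

end Pool.Agent.Results.MP_24ba74_al.PerfectKernel
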